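import Pool.Agent.Q240.CD.Stm3

set_option autoImplicit false

/-!
# Project CD: the zeros of zeta satisfy the structure `ZS`
-/

open Complex Filter Topology Set
open scoped ComplexConjugate
open Pool.Agent.Q240.CD

namespace Pool.Agent.Q210.CD

/-- the count of the zeros up to height `T` -/
theorem cntT : ∃ C : ℝ, 0 < C ∧ ∀ T : ℝ, 1 ≤ T → ∀ S : Finset ℂ, (∀ s ∈ S, Y23.IsZ s ∧ |s.im| ≤ T) →
    ∑ s ∈ S, (Y23.mu s : ℝ) ≤ C * T ^ (3 / 2 : ℝ) := by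
  classical
  obtain ⟨C, hC, hcnt⟩ := Y23.cnt
  refine ⟨40 * C, by positivity, fun T hT S hS => ?_⟩
  set N : ℤ := ⌈T⌉ with hN
  have hNT : T ≤ N := Int.le_ceil T
  have hNT1 : (N : ℝ) < T + 1 := Int.ceil_lt_add_one T
  have hN0 : (0 : ℝ) ≤ N := by linarith
  have hmaps : ∀ s ∈ S, ⌊s.im⌋ ∈ Finset.Icc (-N) N := by
    intro s hs
    obtain ⟨_, h2⟩ := hS s hs
    rw [abs_le] at h2
    rw [Finset.mem_Icc]
    constructor
    · rw [Int.le_floor]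
      push_cast
      linarith [h2.1]
    · have h3 : ((⌊s.im⌋ : ℤ) : ℝ) ≤ N := (Int.floor_le s.im).trans (by linarith [h2.2])
      exact_mod_cast h3
  rw [← Finset.sum_fiberwise_of_maps_to hmaps]
  have h1 : ∀ k ∈ Finset.Icc (-N) N, ∑ s ∈ S.filter (fun s => ⌊s.im⌋ = k), (Y23.mu s : ℝ) ≤
      C * (4 * (1 + (N : ℝ)) ^ (1 / 2 : ℝ)) := by
    intro k hk
    rw [Finset.mem_Icc] at hk
    have h3 := hcnt k (S.filter (fun s => ⌊s.im⌋ = k)) (by
      intro s hs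
      rw [Finset.mem_filter] at hs
      refine ⟨(hS s hs.1).1, ?_⟩
      have h4 := Int.floor_le s.im
      have h5 := Int.lt_floor_add_one s.im
      rw [hs.2] at h4 h5
      rw [abs_le]
      constructor <;> linarith)
    push_cast at h3
    refine h3.trans (mul_le_mul_of_nonneg_left ?_ hC.le)
    have h6 : Y23.Lg (k : ℝ) ≤ Y23.Lg (N : ℝ) := by
      unfold Y23.Lg
      refine Real.log_le_log (by positivity) ?_
      have h7 : |(k : ℝ)| ≤ |(N : ℝ)| := by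
        rw [abs_of_nonneg hN0, abs_le]
        constructor
        · exact_mod_cast hk.1
        · exact_mod_cast hk.2
      linarith
    refine h6.trans ?_
    have h8 := Y23.Lg_le N
    rwa [abs_of_nonneg hN0] at h8
  refine (Finset.sum_le_sum h1).trans ?_
  rw [Finset.sum_const, nsmul_eq_mul]
  have hN0' : 0 ≤ N := by exact_mod_cast hN0
  have hcard : (((Finset.Icc (-N) N).card : ℕ) : ℝ) = 2 * N + 1 := by
    rw [Int.card_Icc]
    have : (((N + 1 - -N).toNat : ℕ) : ℤ) = 2 * N + 1 := by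
      rw [Int.toNat_of_nonneg (by omega)]
      ring
    exact_mod_cast congrArg (fun z : ℤ => (z : ℝ)) this
  rw [hcard]
  have hT0 : (0 : ℝ) < T := by linarith
  have h9 : (2 * N + 1 : ℝ) ≤ 5 * T := by linarith
  have h10 : (1 + (N : ℝ)) ^ (1 / 2 : ℝ) ≤ 2 * T ^ (1 / 2 : ℝ) := by
    calc (1 + (N : ℝ)) ^ (1 / 2 : ℝ) ≤ (4 * T) ^ (1 / 2 : ℝ) :=
          Real.rpow_le_rpow (by positivity) (by linarith) (by norm_num)
      _ = 2 * T ^ (1 / 2 : ℝ) := by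
          rw [Real.mul_rpow (by norm_num) hT0.le]
          congr 1
          rw [show (4 : ℝ) = 2 ^ (2 : ℝ) by norm_num, ← Real.rpow_mul (by norm_num)]
          norm_num
  have h11 : T ^ (3 / 2 : ℝ) = T * T ^ (1 / 2 : ℝ) := by
    rw [show (3 / 2 : ℝ) = 1 + 1 / 2 by norm_num, Real.rpow_add hT0, Real.rpow_one]
  rw [h11]
  have h12 : 0 ≤ T ^ (1 / 2 : ℝ) := by positivity
  calc (2 * N + 1 : ℝ) * (C * (4 * (1 + (N : ℝ)) ^ (1 / 2 : ℝ)))
      ≤ (5 * T) * (C * (4 * (2 * T ^ (1 / 2 : ℝ)))) := by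
        refine mul_le_mul h9 ?_ (by positivity) (by positivity)
        exact mul_le_mul_of_nonneg_left (mul_le_mul_of_nonneg_left h10 (by norm_num)) hC.le
    _ = 40 * C * (T * T ^ (1 / 2 : ℝ)) := by ring

lemma zp_re (ρ : Y23.Zt) : (zp ρ).re = (ρ : ℂ).im := by
  unfold zp
  simp

lemma zp_im (ρ : Y23.Zt) : (zp ρ).im = -((ρ : ℂ).re - 1 / 2) := by
  unfold zp
  simp

lemma back (s : ℂ) : 1 / 2 + I * (-I * (s - 1 / 2)) = s := by
  have : I * (-I * (s - 1 / 2)) = -(I * I) * (s - 1 / 2) := by ring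
  rw [this, I_mul_I]
  ring

lemma mz_zp (ρ : Y23.Zt) : mz (zp ρ) = Y23.mu ρ := by
  unfold mz zp
  rw [back]

lemma zp_inj : Function.Injective zp := by
  intro ρ σ h
  have h1 : (1 / 2 : ℂ) + I * zp ρ = 1 / 2 + I * zp σ := by rw [h]
  unfold zp at h1
  rw [back, back] at h1
  exact Subtype.ext h1

lemma zp_conj (ρ : Y23.Zt) (h : Y23.IsZ (1 - conj (ρ : ℂ))) : zp ⟨1 - conj (ρ : ℂ), h⟩ = conj (zp ρ) := by
  unfold zp
  simp only [map_mul, map_neg, conj_I, map_sub, map_div₀, map_one, map_ofNat]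
  ring

lemma zp_neg (ρ : Y23.Zt) (h : Y23.IsZ (1 - (ρ : ℂ))) : zp ⟨1 - (ρ : ℂ), h⟩ = -zp ρ := by
  unfold zp
  ring

lemma isZ_one_sub {s : ℂ} (h : Y23.IsZ s) : Y23.IsZ (1 - s) := by
  have := Y23.isZ_refl (Y23.isZ_conj h)
  rwa [conj_conj] at this

lemma mu_one_sub {s : ℂ} (h : Y23.IsZ s) : Y23.mu (1 - s) = Y23.mu s := by
  have := Y23.mu_refl (Y23.isZ_conj h)
  rw [conj_conj, Y23.mu_conj h] at this
  exact this

/-- **ZSz** -/
theorem zsz (hNR : S_NoReal) : S_ZSz := by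
  refine ⟨⟨?_, ?_, ?_, ?_, ?_, ?_, ?_, ?_⟩, zp_inj, mz_zp⟩
  · rintro _ ⟨ρ, rfl⟩
    rw [zp_im, abs_le]
    obtain ⟨_, h1, h2⟩ := ρ.2
    constructor <;> linarith
  · rintro _ ⟨ρ, rfl⟩
    exact ⟨⟨_, Y23.isZ_refl ρ.2⟩, zp_conj ρ _⟩
  · rintro _ ⟨ρ, rfl⟩
    exact ⟨⟨_, isZ_one_sub ρ.2⟩, zp_neg ρ _⟩
  · rintro _ ⟨ρ, rfl⟩
    rw [← zp_conj ρ (Y23.isZ_refl ρ.2), mz_zp, mz_zp]
    exact Y23.mu_refl ρ.2
  · rintro _ ⟨ρ, rfl⟩
    rw [← zp_neg ρ (isZ_one_sub ρ.2), mz_zp, mz_zp]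
    exact mu_one_sub ρ.2
  · rintro _ ⟨ρ, rfl⟩
    rw [mz_zp]
    exact Y23.mu_pos ρ.2
  · rintro _ ⟨ρ, rfl⟩
    rw [zp_re]
    exact hNR ρ
  · classical
    obtain ⟨C, _, hc⟩ := cntT
    refine ⟨C, fun T hT S hS => ?_⟩
    have h1 := hc T hT (S.image (fun z => 1 / 2 + I * z)) (by
      intro s hs
      rw [Finset.mem_image] at hs
      obtain ⟨z, hz, rfl⟩ := hs
      obtain ⟨⟨ρ, rfl⟩, h3⟩ := hS z hz
      have h4 : (1 / 2 : ℂ) + I * zp ρ = ρ := by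
        unfold zp
        exact back _
      rw [h4]
      refine ⟨ρ.2, ?_⟩
      rw [← zp_re]
      exact (Complex.abs_re_le_norm _).trans h3)
    rw [Finset.sum_image (fun x _ y _ hxy => by simpa using hxy)] at h1
    exact h1

end Pool.Agent.Q210.CD
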